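import Mathlib
import Pool.Agent.Q298.KacU.XA

/-!
# Non-universality of the constant term for real roots of Kac polynomials

For the Gaussian scale mixture `μ_τ = ½ N(0,1+τ) + ½ N(0,1-τ)` (`0 < τ ≤ 1/200`), which has mean `0`,
variance `1`, all moments, a smooth symmetric density and no atom, the constant `C_ξ` in
`E N(ℝ) = (2/π) log n + C_ξ + o(1)` is strictly larger than the Gaussian constant.
-/

set_option autoImplicit false
open MeasureTheory ProbabilityTheory Filter Topology Set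
open scoped ENNReal NNReal

namespace Pool.Agent.Results.MP_a7dd25_pr.NonUniversal

/-- The Kac polynomial `P_n = ∑_{k ≤ n} ξ_k X^k`. -/
noncomputable def kacPoly (n : ℕ) (ξ : ℕ → ℝ) : Polynomial ℝ :=
  ∑ k ∈ Finset.range (n + 1), Polynomial.C (ξ k) * Polynomial.X ^ k

/-- Number of real roots of a real polynomial, counted with multiplicity. -/
noncomputable def numRoots (p : Polynomial ℝ) : ℕ := Multiset.card p.roots

/-- The law of a sequence `ξ_0, ξ_1, ...` of independent random variables with common law `μ`. -/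
noncomputable def iidLaw (μ : Measure ℝ) : Measure (ℕ → ℝ) := Measure.infinitePi (fun _ : ℕ => μ)

/-- `E N_{P_n}(ℝ)`, roots counted with multiplicity. -/
noncomputable def expectedRoots (μ : Measure ℝ) (n : ℕ) : ℝ :=
  ∫ ξ, (numRoots (kacPoly n ξ) : ℝ) ∂(iidLaw μ)

/-- Admissible laws: probability laws with mean `0`, variance `1`, and a finite absolute moment of
some order `2 + ε`, `ε > 0`. -/
structure Admissible (μ : Measure ℝ) : Prop where
  prob : IsProbabilityMeasure μ
  int1 : Integrable (fun x : ℝ => x) μ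
  mean : ∫ x, x ∂μ = 0
  int2 : Integrable (fun x : ℝ => x ^ 2) μ
  var : ∫ x, x ^ 2 ∂μ = 1
  mom : ∃ ε : ℝ, 0 < ε ∧ Integrable (fun x : ℝ => |x| ^ (2 + ε)) μ

/-- The expansion `E N_{P_n}(ℝ) = (2/π) log n + C + o(1)`, where the number of roots is integrable
for every `n`; thus `C = C_ξ` for `ξ` with law `μ`. -/
def HasConst (μ : Measure ℝ) (C : ℝ) : Prop :=
  (∀ n : ℕ, Integrable (fun ξ => (numRoots (kacPoly n ξ) : ℝ)) (iidLaw μ)) ∧
    Tendsto (fun n : ℕ => expectedRoots μ n - (2 / Real.pi) * Real.log n) atTop (𝓝 C)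

/-- Kac's constant `0.62573...`:
`(2/π) log 2 + (4/π) (∫_0^1 g + ∫_1^∞ (g(u) - 1/(2u)) du)`, `g(u) = ½ √(1/u² - 1/sinh² u)`. -/
noncomputable def kacConst : ℝ :=
  (2 / Real.pi) * Real.log 2
    + (4 / Real.pi) * ((∫ u in Ioc (0 : ℝ) 1, (1 / 2) * Real.sqrt (1 / u ^ 2 - 1 / Real.sinh u ^ 2))
      + ∫ u in Ioi (1 : ℝ), ((1 / 2) * Real.sqrt (1 / u ^ 2 - 1 / Real.sinh u ^ 2) - 1 / (2 * u)))

/-- The Gaussian scale mixture `½ N(0,1+τ) + ½ N(0,1-τ)`. -/
noncomputable def mixLaw (τ : ℝ) : Measure ℝ :=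
  (2⁻¹ : ℝ≥0∞) • gaussianReal 0 (1 + τ).toNNReal + (2⁻¹ : ℝ≥0∞) • gaussianReal 0 (1 - τ).toNNReal

theorem gauss_mom (v : ℝ≥0) : Integrable (fun x : ℝ => |x| ^ (2 + (1 : ℝ))) (gaussianReal 0 v) := by
  have h := (memLp_id_gaussianReal (μ := 0) (v := v) 3).integrable_norm_rpow
    (by norm_num) (by simp)
  refine h.congr ?_
  filter_upwards with x
  simp only [id_eq, Real.norm_eq_abs]
  norm_num

theorem adm_gauss : Admissible (gaussianReal 0 1) := by
  have h := Q298.KacU.std_gauss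
  exact ⟨h.prob, Q298.KacU.gauss_int_id 1, h.mean, h.int2, h.var, 1, one_pos, gauss_mom 1⟩

theorem adm_mix (τ : ℝ) (h0 : 0 ≤ τ) (h1 : τ ≤ 1) : Admissible (mixLaw τ) := by
  have h := Q298.KacU.std_mix τ h0 h1
  refine ⟨h.prob, ?_, h.mean, h.int2, h.var, 1, one_pos, ?_⟩
  · unfold mixLaw
    exact ((Q298.KacU.gauss_int_id _).smul_measure (by simp)).add_measure
      ((Q298.KacU.gauss_int_id _).smul_measure (by simp))
  · unfold mixLaw
    exact ((gauss_mom _).smul_measure (by simp)).add_measure ((gauss_mom _).smul_measure (by simp))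

theorem hasConst_of (μ : Measure ℝ) (hμ : Kac764.Std μ) (hat : ∀ y, μ {y} = 0) (C : ℝ)
    (h : Tendsto (fun n : ℕ => ∫ ω, (Kac764.nz (Kac764.kac n ω) univ : ℝ) ∂(Kac764.PP μ)
      - (2 / Real.pi) * Real.log n) atTop (𝓝 C)) : HasConst μ C := by
  have := hμ.prob
  refine ⟨fun n => Q298.KacU.card_int μ hμ hat n, ?_⟩
  refine h.congr ?_
  intro n
  congr 1
  exact (integral_congr_ae (Q298.KacU.card_ae μ hat n)).symm

/-- **Non-universality of the constant.** The constant of the standard Gaussian law is `kacConst`,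
and for every `0 < τ ≤ 1/200` the mixture `μ_τ = ½ N(0,1+τ) + ½ N(0,1-τ)` is admissible, has no atom
(in particular none at `0`), and its constant `C` satisfies `C ≥ kacConst + τ²/100 > kacConst`. -/
theorem result :
    Admissible (gaussianReal 0 1) ∧ HasConst (gaussianReal 0 1) kacConst ∧
      ∀ τ : ℝ, 0 < τ → τ ≤ 1 / 200 →
        Admissible (mixLaw τ) ∧ (∀ y : ℝ, mixLaw τ {y} = 0) ∧
          ∃ C : ℝ, HasConst (mixLaw τ) C ∧ kacConst + τ ^ 2 / 100 ≤ C ∧ C ≠ kacConst := by
  refine ⟨adm_gauss, ?_, ?_⟩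
  · exact hasConst_of _ Q298.KacU.std_gauss Q298.KacU.gauss_singleton _ Q298.KacU.gauss_main
  · intro τ h0 h1
    obtain ⟨C, hC, hlim⟩ := Q298.KacU.mix_main τ h0 h1
    refine ⟨adm_mix τ h0.le (by linarith), Q298.KacU.mix_singleton τ h0.le (by linarith), C, ?_, hC, ?_⟩
    · exact hasConst_of _ (Q298.KacU.std_mix τ h0.le (by linarith))
        (Q298.KacU.mix_singleton τ h0.le (by linarith)) C hlim
    · intro hcon
      rw [hcon] at hC
      have h3 : kacConst = Kac764.gaussConst := rfl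
      have : 0 < τ ^ 2 := by positivity
      rw [h3] at hC
      linarith

end Pool.Agent.Results.MP_a7dd25_pr.NonUniversal
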